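import Pool.Agent.LibPP93.Z1

/-!
# The analytic ranks of half of all quadratic twists, over all `3`-extensions

`F` is a finite field with `q` elements, `q` prime to `6`, `K = F(t) = RatFunc F`, `M` is a field between
`K` and a Galois extension of `K` whose degree is a power of `3`, `E` is an elliptic curve over `M` with
an `M`-rational point of order `3`: it has an equation `y² = x³ + (a x + b)²`, `a, b ∈ M`.  Its twist by
`D` is `E_D : y² = x³ + D (a x + b D)²` (`PP51.wd D a b`).

`PP93.ExactBound D`: for all `M`, `E` the order of vanishing at `T = 1/q` of `L(E_D/M, T)` is at most an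
explicit number `N`, a sum of local terms, and congruent to `N` modulo `2` by the functional equation.
-/

open Polynomial FFBSD PP51 PP93

namespace Pool.Agent.Results.MP_ff7320_nt.HalfOfTwists

theorem result (F : Type) [Field F] [Finite F] (h2 : ¬ 2 ∣ Nat.card F) (h3 : ¬ 3 ∣ Nat.card F)
    (D₀ B r : F[X]) (hsf : Squarefree (D₀ * B)) (hr : IsCoprime r B) :
    -- (i) the set `T(n)` of polynomials `D` of degree `n` has at least `c qⁿ` elements
    (∃ c : ℝ, 0 < c ∧ ∃ n₀ : ℕ, ∀ n : ℕ, n₀ ≤ n →
      c * (Nat.card F : ℝ) ^ n ≤ ((Tws D₀ B r n).ncard : ℝ)) ∧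
    -- (ii) at least half of its elements satisfy `ExactBound`, if `n` is odd
    ∀ δ : ℝ, 0 < δ → ∃ n₀ : ℕ, ∀ n : ℕ, n₀ ≤ n → Odd n →
      (1 / 2 - δ) * ((Tws D₀ B r n).ncard : ℝ) ≤
        ({D ∈ Tws D₀ B r n | ExactBound D}.ncard : ℝ) := by
  have h2F : (2 : F) ≠ 0 := by
    intro h
    obtain ⟨v, -⟩ := exists_place_infty (F := F)
    apply two_ne_kappa h2 v
    have h4 : algebraMap F v.κ 2 = 0 := by rw [h, map_zero]
    rwa [map_ofNat] at h4
  exact ⟨class_lower h2F hsf hr, fun δ hδ => half_exact h2 h3 hsf hr hδ⟩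

end Pool.Agent.Results.MP_ff7320_nt.HalfOfTwists
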