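import Pool.Agent.LibDB51.F3

/-!
# The Birch–Swinnerton-Dyer conjecture in twisted Kummer towers

`k` is a finite field, `K₁` a function field over `k` with exact field of constants `k`, `E` an
elliptic curve over `K₁` and `g₁, …, g_t ∈ K₁*`, `Γ = ⟨g₁, …, g_t⟩`. There is a number `N`, depending
only on these data, which controls the analytic ranks of `E` in all twisted Kummer towers
`H(z)`, `z ^ n = uG`, `G ∈ Γ`, `u` a constant, over all twisted Kummer extensions `H` of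
`K₁F`, `H = K₁F(w₁, …, w_s)`, `w_i ^ {m_i} = c_i γ_i`, `γ_i ∈ Γ`, `c_i` constants.

The proof uses the theorem of Dwork and Bombieri for the rationality and for a uniform bound of the
degrees of the `L`-functions of exponential sums (proved in `LibDB51`).
-/

open Polynomial FFBSD WeierstrassCurve DB51

namespace Pool.Agent.Results.MP_ff7320_nt.KummerTowers

/-- the element `∏ g_i ^ {e_i}` of the group `Γ` generated by the `g_i` -/
def gprod {K : Type} [Field K] {t : ℕ} (g : Fin t → K) (e : Fin t → ℤ) : K := ∏ i, g i ^ e i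

/-- `H = K₀(w₁, …, w_s)`, `K₀ = K₁F`, `w_i ^ {m_i} = c_i γ_i`, `c_i ∈ F*`, `γ_i ∈ Γ`,
`[H : K₀] = ∏ m_i`, the `m_i` prime to the characteristic -/
def KumBase (k : Type) {K₁ F : Type} (H : Type) [Field k] [Field K₁] [Field F] [Field H]
    [Algebra k F] [Algebra K₁ H] [Algebra F H] {t : ℕ} (g : Fin t → K₁) {s : ℕ} (m : Fin s → ℕ)
    (c : Fin s → F) : Prop :=
  ∃ (ε : Fin s → Fin t → ℤ) (w : Fin s → H),
    (∀ i, (Nat.card k).Coprime (m i) ∧ c i ≠ 0 ∧
      w i ^ m i = algebraMap F H (c i) * algebraMap K₁ H (gprod g (ε i))) ∧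
    IntermediateField.adjoin K₁ (Set.range (algebraMap F H) ∪ Set.range w) = ⊤ ∧
    Module.finrank K₁ H = Module.finrank k F * ∏ i, m i

/-- the conditions on the primes `ℓ` dividing `n`: `ℓ ∣ |F| - 1` and `F*G` contains no `ℓ`-th power
of `H` -/
def CondN (F : Type) {H : Type} [Field F] [Field H] [Algebra F H] (n : ℕ) (G : H) : Prop :=
  ∀ ℓ : ℕ, ℓ.Prime → ℓ ∣ n → ℓ ∣ Nat.card F - 1 ∧ ∀ (a : F) (x : H), a ≠ 0 →
    x ^ ℓ ≠ algebraMap F H a * G

/-- the conditions on the primes `ℓ` dividing `n / n'` -/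
def CondL {F : Type} [Field F] (q N n n' : ℕ) (u : F) {s : ℕ} (m : Fin s → ℕ) (c : Fin s → F) :
    Prop :=
  ∀ ℓ : ℕ, ℓ.Prime → ℓ ∣ n / n' → (∀ b : F, b ^ ℓ ≠ u) ∧
    (∀ i, ¬ ℓ ∣ orderOf (Nat.card F : ZMod (m i)) ∧ (c i = 1 ∨ ¬ ℓ ∣ m i)) ∧
    N < orderOf (q : ZMod (ℓ ^ min (padicValNat ℓ (Nat.card F - 1)) (padicValNat ℓ n' + 1)))

/-- the rank of `E(K)` is at least `r` -/
def RankGe {K : Type} [Field K] [DecidableEq K] (E : WeierstrassCurve K) (r : ℤ) : Prop :=
  (r.toNat : Cardinal) ≤ Module.rank ℤ E.toAffine.Point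

/-- the curve `E` over the layer `H(z ^ (n / d))` -/
noncomputable def layE {H M : Type} [Field H] [Field M] [Algebra H M] (E : WeierstrassCurve H)
    (z : M) (n d : ℕ) : WeierstrassCurve (lay H z n d) := E.map (algebraMap H (lay H z n d))

theorem finite_primes (q N : ℕ) (hq : 1 < q) :
    {ℓ : ℕ | ℓ.Prime ∧ orderOf (q : ZMod ℓ) ≤ N}.Finite := by
  have hpos : ∀ j ∈ Finset.range N, 0 < q ^ (j + 1) - 1 := by
    intro j _
    have h1 : 1 < q ^ (j + 1) := Nat.one_lt_pow (Nat.succ_ne_zero j) hq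
    omega
  set A : ℕ := q * ∏ j ∈ Finset.range N, (q ^ (j + 1) - 1) with hA
  have hA0 : A ≠ 0 :=
    mul_ne_zero (by omega) (Finset.prod_ne_zero_iff.mpr fun j hj => (hpos j hj).ne')
  refine (Finset.finite_toSet (Nat.divisors A)).subset ?_
  rintro ℓ ⟨hℓ, hord⟩
  have _ : Fact ℓ.Prime := ⟨hℓ⟩
  rw [Finset.mem_coe, Nat.mem_divisors]
  refine ⟨?_, hA0⟩
  by_cases hdvd : ℓ ∣ q
  · exact hdvd.mul_right _
  · have h0 : (q : ZMod ℓ) ≠ 0 := by
      rw [Ne, ZMod.natCast_eq_zero_iff]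
      exact hdvd
    have h1 : 0 < orderOf (q : ZMod ℓ) := orderOf_pos_iff.mpr (isOfFinOrder_iff_pow_eq_one.mpr
      ⟨ℓ - 1, by have := hℓ.one_lt; omega, ZMod.pow_card_sub_one_eq_one h0⟩)
    have h2 : ℓ ∣ q ^ orderOf (q : ZMod ℓ) - 1 := by
      rw [← ZMod.natCast_eq_zero_iff, Nat.cast_sub (Nat.one_le_pow _ _ (by omega)), Nat.cast_pow,
        pow_orderOf_eq_one, Nat.cast_one, sub_self]
    refine Dvd.dvd.mul_left ?_ _
    refine (?_ : ℓ ∣ q ^ (orderOf (q : ZMod ℓ) - 1 + 1) - 1).trans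
      (Finset.dvd_prod_of_mem (fun j => q ^ (j + 1) - 1)
        (Finset.mem_range.mpr (by omega : orderOf (q : ZMod ℓ) - 1 < N)))
    rwa [Nat.sub_add_cancel h1]

/-- the rank of `E` over the layers of the tower increases -/
theorem rank_lay_le {H M : Type} [Field H] [Field M] [DecidableEq M] [Algebra H M]
    (E : WeierstrassCurve H) {n n' d : ℕ} (hn : n ≠ 0) (hd' : n' ∣ d) (hd : d ∣ n) (z : M) :
    Module.rank ℤ (E.map (algebraMap H (lay H z n n'))).toAffine.Point ≤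
      Module.rank ℤ (E.map (algebraMap H (lay H z n d))).toAffine.Point := by
  have hle : lay H z n n' ≤ lay H z n d := by
    rw [lay, IntermediateField.adjoin_simple_le_iff]
    have hd0 : d ≠ 0 := fun h => hn (Nat.eq_zero_of_zero_dvd (h ▸ hd))
    have h1 : z ^ (n / n') = (z ^ (n / d)) ^ (d / n') := by
      rw [← pow_mul]
      congr 1
      exact (Nat.div_mul_div_comm hd hd').symm ▸ (by
        rw [mul_comm n d, Nat.mul_div_mul_left _ _ (Nat.pos_of_ne_zero hd0)])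
    rw [h1]
    exact pow_mem (mem_lay z n d) _
  have hmap : (E.map (algebraMap H (lay H z n n'))).map
      (IntermediateField.inclusion hle : lay H z n n' →+* lay H z n d) =
      E.map (algebraMap H (lay H z n d)) := by
    rw [WeierstrassCurve.map_map]
    congr 1
  have h1 := rank_map_le (IntermediateField.inclusion hle : lay H z n n' →+* lay H z n d)
    (E.map (algebraMap H (lay H z n n')))
  rw [hmap] at h1
  exact h1

theorem result (k K₁ : Type) [Field k] [Finite k] [Field K₁] [Algebra k K₁] (hK₁ : FunField k K₁)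
    (hk : ∀ x : K₁, IsAlgebraic k x → x ∈ Set.range (algebraMap k K₁))
    (E : WeierstrassCurve K₁) (hE : E.Δ ≠ 0) (t : ℕ) (g : Fin t → K₁) (hg : ∀ i, g i ≠ 0) :
    ∃ N : ℕ, {ℓ : ℕ | ℓ.Prime ∧ orderOf (Nat.card k : ZMod ℓ) ≤ N}.Finite ∧
    ∀ (F H M : Type) [Field F] [Finite F] [Field H] [Field M] [DecidableEq M] [Algebra k F]
      [Algebra K₁ H] [Algebra F H] [Algebra k H] [IsScalarTower k K₁ H] [IsScalarTower k F H]
      [Algebra F M] [Algebra H M] [IsScalarTower F H M]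
      (s : ℕ) (m : Fin s → ℕ) (c : Fin s → F), KumBase k H g m c →
      ∀ (n n' : ℕ) (u : F) (e : Fin t → ℤ) (z : M), n ≠ 0 → n' ∣ n → Odd n → u ≠ 0 →
      CondN F n (algebraMap K₁ H (gprod g e)) → CondL (Nat.card k) N n n' u m c →
      -- `M = H(z)`, `z ^ n = uG`
      z ^ n = algebraMap H M (algebraMap F H u * algebraMap K₁ H (gprod g e)) →
      IntermediateField.adjoin H {z} = ⊤ →
      ∃ r : ℤ, ∀ d : ℕ, n' ∣ d → d ∣ n →
        AnRank F (layE (E.map (algebraMap K₁ H)) z n d) r ∧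
        (RankGe (layE (E.map (algebraMap K₁ H)) z n n') r →
          RankGe (layE (E.map (algebraMap K₁ H)) z n d) r) := by
  obtain ⟨N, hN⟩ := main_orderR hK₁ hk E hE g hg
  refine ⟨N, finite_primes _ _ Finite.one_lt_card, ?_⟩
  intro F H M _ _ _ _ _ _ _ _ _ _ _ _ _ _ s m c hB n n' u e z hn hn' hodd hu0 hp hu hz htop
  obtain ⟨ε, w, hw, hgen, hfr⟩ := hB
  obtain ⟨r, hr⟩ := hN F H M s m c ε w hw hgen hfr n n' u e z hn hn' hodd hu0 hp hu hz htop
  exact ⟨r, fun d hd' hd => ⟨hr d hd' hd, fun h => h.trans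
    (rank_lay_le (E.map (algebraMap K₁ H)) hn hd' hd z)⟩⟩

end Pool.Agent.Results.MP_ff7320_nt.KummerTowers
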