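import Pool.Agent.LibUB51.G3

/-!
# The Birch–Swinnerton-Dyer conjecture for the Legendre curve in twisted Kummer towers

`k` is a finite field of characteristic `p ≠ 2`, `E` the Legendre curve `y² = x' (x' + 1) (x' + x)` over
`k(x)` and `g₁, …, g_t ∈ k(x)*`, `Γ = ⟨g₁, …, g_t⟩`. There is a number `N` such that for all finite `F/k`,
all even `m ∣ p ^ j + 1`, `H = F(x^(1/m))`, and all twisted Kummer towers `H(z)`, `z ^ n = uG`, `G ∈ Γ`,
`u ∈ F*`, (conditions on the primes dividing `n`) over all layers `M_d = H(z ^ (n / d))`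
`ord_{T = 1/|F|} L(E/M_d, T) ≤ ν - 2 ≤ rk E(M_d)`, where `ν` is the number of monic irreducible factors of
`X ^ m - 1` over `F`.
-/

open Polynomial FFBSD WeierstrassCurve DB51

namespace Pool.Agent.Results.MP_ff7320_nt.LegendreTowers

/-- the element `∏ g_i ^ {e_i}` of the group `Γ` generated by the `g_i` -/
def gprod {K : Type} [Field K] {t : ℕ} (g : Fin t → K) (e : Fin t → ℤ) : K := ∏ i, g i ^ e i

/-- `H = F(w)`, `w ^ m = x`, where `m` is even and divides some `p ^ j + 1`, `p` the characteristic -/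
def LegBase (k F H : Type) [Field k] [Field F] [Field H] [Algebra (RatFunc k) H] [Algebra F H]
    (m : ℕ) : Prop :=
  Even m ∧ (∃ j : ℕ, m ∣ ringChar k ^ j + 1) ∧
    ∃ w : H, w ^ m = algebraMap (RatFunc k) H RatFunc.X ∧ IntermediateField.adjoin F {w} = ⊤

/-- the conditions on the primes `ℓ` dividing `n`: `ℓ ∣ |F| - 1`, `F*G` contains no `ℓ`-th power of `H`,
`u` is not an `ℓ`-th power in `F`, `ℓ` does not divide the order of `|F|` modulo `m`, and the order of `q`
modulo `ℓ` is greater than `N` -/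
def Cond {F H : Type} [Field F] [Field H] [Algebra F H] (q N m n : ℕ) (u : F) (G : H) : Prop :=
  ∀ ℓ : ℕ, ℓ.Prime → ℓ ∣ n →
    ℓ ∣ Nat.card F - 1 ∧ (∀ (a : F) (x : H), a ≠ 0 → x ^ ℓ ≠ algebraMap F H a * G) ∧
    (∀ b : F, b ^ ℓ ≠ u) ∧ ¬ ℓ ∣ orderOf (Nat.card F : ZMod m) ∧ N < orderOf (q : ZMod ℓ)

/-- the rank of `E(K)` is at least `r` -/
def RankGe {K : Type} [Field K] [DecidableEq K] (E : WeierstrassCurve K) (r : ℤ) : Prop :=
  (r.toNat : Cardinal) ≤ Module.rank ℤ E.toAffine.Point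

/-- the curve `y² = x' (x' + 1) (x' + x)` over the layer `M_d = H(z ^ (n / d))` -/
noncomputable def layLeg (k H : Type) {M : Type} [Field k] [Field H] [Field M]
    [Algebra (RatFunc k) H] [Algebra H M] (z : M) (n d : ℕ) : WeierstrassCurve (lay H z n d) :=
  leg (algebraMap H (lay H z n d) (algebraMap (RatFunc k) H RatFunc.X))

theorem result (k : Type) [Field k] [Finite k] (h2 : ringChar k ≠ 2) (t : ℕ)
    (g : Fin t → RatFunc k) (hg : ∀ i, g i ≠ 0) :
    ∃ N : ℕ, {ℓ : ℕ | ℓ.Prime ∧ orderOf (Nat.card k : ZMod ℓ) ≤ N}.Finite ∧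
    ∀ (F H M : Type) [Field F] [Finite F] [Field H] [Field M] [DecidableEq M] [Algebra k F]
      [Algebra (RatFunc k) H] [Algebra F H] [Algebra k H] [IsScalarTower k (RatFunc k) H]
      [IsScalarTower k F H] [Algebra F M] [Algebra H M] [IsScalarTower F H M]
      (m : ℕ), LegBase k F H m →
      ∀ (n : ℕ) (u : F) (e : Fin t → ℤ) (z : M), Odd n → u ≠ 0 →
      Cond (Nat.card k) N m n u (algebraMap (RatFunc k) H (gprod g e)) →
      -- `M = H(z)`, `z ^ n = uG`
      z ^ n = algebraMap H M (algebraMap F H u * algebraMap (RatFunc k) H (gprod g e)) →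
      IntermediateField.adjoin H {z} = ⊤ →
      ∃ r : ℤ, r ≤ (numFac F m : ℤ) - 2 ∧ ∀ d : ℕ, d ∣ n →
        AnRank F (layLeg k H z n d) r ∧ RankGe (layLeg k H z n d) ((numFac F m : ℤ) - 2) := by
  obtain ⟨N, hN1, hN⟩ := UB51.leg_towers k h2 t g hg
  refine ⟨N, hN1, ?_⟩
  intro F H M _ _ _ _ _ _ _ _ _ _ _ _ _ _ m hB n u e z hodd hu0 hc hz htop
  exact hN F H M m hB.1 hB.2.1 hB.2.2 n u e z hodd hu0 hc hz htop

end Pool.Agent.Results.MP_ff7320_nt.LegendreTowers
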