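import Pool.Agent.LibOB49.M2

/-!
# Analytic ranks in Kummer towers: at most `C` per Frobenius orbit

`F` is a finite field with `q` elements, `H` a function field with exact field of constants `F`, `E` an
elliptic curve over `H` with `L(E/H, T) = P₀ ∈ ℤ[T]`, `S` any finite set of places of `H`. Let `ρ` be the
number of positive zeros of `P₀`, and `C = ρ + ∑_{v ∈ S} c_v`, `c_v` the number of positive zeros of the
Euler polynomial at `v`. For infinitely many primes `ℓ` the order of vanishing at `T = 1/q` of the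
`L`-function in every Kummer tower `M_j = H(z₁^(1/ℓ^j), …, z_r^(1/ℓ^j))` which is ramified only in `S` is
at most `ρ + C(ω - 1)`, `ω` the number of orbits of multiplication by `q` on `(ℤ/ℓ^n)^r`.
-/

open Polynomial FFBSD Pool.Agent.LibRP22 OB49

namespace Pool.Agent.Results.MP_ff7320_nt.OrbitBound

theorem result (F : Type) [Field F] [Finite F] (H : Type) [Field H] [Algebra F H]
    (hH : FunField F H) (hk : ∀ x : H, IsAlgebraic F x → x ∈ Set.range (algebraMap F H))
    (E : WeierstrassCurve H) (hE : E.Δ ≠ 0) (P₀ : ℤ[X])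
    (hP₀ : IsLFunction F E (P₀ : PowerSeries ℤ)) (S : Finset (Place F H)) :
    {ℓ : ℕ | ℓ.Prime ∧ Odd (orderOf (Nat.card F : ZMod ℓ)) ∧
      ∀ (r n : ℕ) (M : Type) [Field M] [Algebra F M] [Algebra H M] [IsScalarTower F H M]
        (z : Fin r → H) (y : Fin r → M),
        (∀ i, z i ≠ 0) →
        -- `M = H(y_1, …, y_r)`, `y_i ^ (ℓ ^ n) = z_i`, `[M : H] = ℓ ^ (r n)`
        (∀ i, y i ^ ℓ ^ n = algebraMap H M (z i)) →
        IntermediateField.adjoin H (Set.range y) = ⊤ →
        Module.finrank H M = ℓ ^ (r * n) →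
        -- `F` is the exact field of constants of `M`
        (∀ x : M, IsAlgebraic F x → x ∈ Set.range (algebraMap F M)) →
        -- outside `S` the orders of the `z_i` are divisible by `ℓ ^ n`
        (∀ v ∉ S, ∀ i, ∃ b : H, v.O.valuation (z i) = v.O.valuation (b ^ ℓ ^ n)) →
        -- `P_j` is the `L`-function of `E` over `M_j = H(y_1 ^ (ℓ ^ (n - j)), …)`
        ∀ P : ℕ → ℤ[X],
          (∀ j ≤ n, IsLFunction F (E.map (algebraMap H
            (IntermediateField.adjoin H (Set.range fun i => y i ^ ℓ ^ (n - j)))))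
            (P j : PowerSeries ℤ)) →
          (∀ j < n, P j ∣ P (j + 1)) →
          (∀ j < n, orderOf (Nat.card F : ZMod (ℓ ^ (j + 1))) * ordAt (Nat.card F) (P (j + 1)) ≤
            orderOf (Nat.card F : ZMod (ℓ ^ (j + 1))) * ordAt (Nat.card F) (P j) +
              cst E P₀ S * (ℓ ^ (r * (j + 1)) - ℓ ^ (r * j))) ∧
          ordAt (Nat.card F) (P n) + cst E P₀ S ≤
            posZeros P₀ + cst E P₀ S * orb (Nat.card F) (ℓ ^ n) r}.Infinite := by
  classical
  refine Set.infinite_of_forall_exists_gt fun N => ?_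
  have hc : P₀.coeff 0 = 1 := by
    have h1 := sb_constantCoeff E _ hP₀
    rwa [Polynomial.constantCoeff_coe] at h1
  have hD : 0 < ∏ v ∈ S, v.deg := Finset.prod_pos fun v _ => deg_pos v
  obtain ⟨ℓ, hN, hℓ, hq, -, hqe, he, hcop, V, hℓV, hV⟩ := exists_good2 (bad E P₀ S)
    (fun z hz => by
      rcases (mem_bad E P₀ S z).mp hz with ⟨r, hr, rfl⟩ | ⟨v, _, r, hr, rfl⟩
      · exact inv_integral P₀ hc r hr
      · exact inv_integral _ (lp_coeff_zero E v) r hr)
    (fun z hz => by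
      rcases (mem_bad E P₀ S z).mp hz with ⟨r, hr, rfl⟩ | ⟨v, _, r, hr, rfl⟩
      · exact roots_ne_zero P₀ hc r hr
      · exact roots_ne_zero _ (lp_coeff_zero E v) r hr)
    (Nat.card F) Finite.one_lt_card (N + 5 + ∏ v ∈ S, v.deg) 0 (∏ v ∈ S, v.deg) hD
  refine ⟨ℓ, ⟨hℓ, ?_, ?_⟩, by omega⟩
  · -- the order of `q` is odd
    have h1 := order_facts (j := 0) hℓ (Nat.card_pos (α := F)) he hqe
    rw [zero_add, pow_one] at h1
    have h2 := (hcop 0 _ h1.1).1
    rw [Nat.odd_iff, ← Nat.two_dvd_ne_zero]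
    intro h3
    have h4 : 2 ∣ Nat.gcd (orderOf (Nat.card F : ZMod ℓ)) 6 := Nat.dvd_gcd h3 (by norm_num)
    rw [Nat.Coprime] at h2
    rw [h2] at h4
    omega
  · intro r n M _ _ _ _ z y hz hy hgen hfr hconst hzS P hP hdvd
    exact tower2 hH hk E hE hℓ (by omega) hq he hqe S
      (fun v hv hd => by
        have h1 : ℓ ∣ ∏ v ∈ S, v.deg := hd.trans (Finset.dvd_prod_of_mem _ hv)
        have h2 := Nat.le_of_dvd hD h1
        omega)
      (fun i m hm => ⟨(hcop i m hm).1, (hcop i m hm).2.1, fun v hv =>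
        Nat.Coprime.coprime_dvd_right (Finset.dvd_prod_of_mem _ hv) (hcop i m hm).2.2⟩)
      V hℓV P₀ hP₀
      (fun r hr => hV _ ((mem_bad E P₀ S _).mpr (Or.inl ⟨r, hr, rfl⟩)))
      (fun v hv r hr => hV _ ((mem_bad E P₀ S _).mpr (Or.inr ⟨v, hv, r, hr, rfl⟩))) z y
      ⟨hz, hy, hgen, by rw [hfr, mul_comm, pow_mul], hconst⟩ hzS P hP hdvd

end Pool.Agent.Results.MP_ff7320_nt.OrbitBound
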